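import Mathlib

namespace Pool.Agent.Lib.MP_f60174_an

open MeasureTheory
open scoped ContDiff

/-- The Euclidean plane. -/
abbrev E2 : Type := EuclideanSpace ℝ (Fin 2)

/-- The derivative of `w` at `x` in the direction of the `i`-th coordinate. -/
noncomputable def pd (i : Fin 2) (w : E2 → ℝ) (x : E2) : ℝ :=
  fderiv ℝ w x (EuclideanSpace.single i 1)

/-- The divergence form operator `L w = - ∑ i j, ∂ i (A i j * ∂ j w) + c * w`. -/
noncomputable def divOp (A : Fin 2 → Fin 2 → E2 → ℝ) (c : E2 → ℝ) (w : E2 → ℝ) (x : E2) : ℝ :=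
  -(∑ i, ∑ j, pd i (fun y => A i j y * pd j w y) x) + c x * w x

/-- `divOp A c` has smooth real coefficients, is formally selfadjoint, uniformly elliptic on the
closed unit disc, and strictly positive as a Dirichlet operator on the unit disc. -/
structure PosElliptic (A : Fin 2 → Fin 2 → E2 → ℝ) (c : E2 → ℝ) : Prop where
  smooth_A : ∀ i j, ContDiff ℝ ∞ (A i j)
  smooth_c : ContDiff ℝ ∞ c
  symm : ∀ i j, A i j = A j i
  elliptic : ∃ κ : ℝ, 0 < κ ∧ ∀ x ∈ Metric.closedBall (0 : E2) 1, ∀ ξ : Fin 2 → ℝ,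
    κ * ∑ i, ξ i ^ 2 ≤ ∑ i, ∑ j, A i j x * ξ i * ξ j
  c_pos : ∀ x ∈ Metric.closedBall (0 : E2) 1, 0 < c x
  positive : ∃ γ : ℝ, 0 < γ ∧ ∀ w : E2 → ℝ, ContDiffOn ℝ 2 w (Metric.closedBall 0 1) →
    (∀ x ∈ Metric.sphere (0 : E2) 1, w x = 0) →
    γ * ∫ x in Metric.ball (0 : E2) 1, w x ^ 2 ≤
      ∫ x in Metric.ball (0 : E2) 1, divOp A c w x * w x

end Pool.Agent.Lib.MP_f60174_an
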