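import Pool.Agent.Lib.MP_f60174_an.Radial

namespace Pool.Agent.Lib.MP_f60174_an

open Polynomial
open scoped ContDiff

noncomputable def T1 : ℝ[X] := C (42) * X ^ 0 + C (-465) * X ^ 1 + C (-11949) * X ^ 2 + C (259228) * X ^ 3 + C (-468065) * X ^ 4 + C (226115) * X ^ 5
noncomputable def B1 : ℝ[X] := C (1355) * X ^ 0 + C (14282) * X ^ 1 + C (-268762) * X ^ 2 + C (476886) * X ^ 3 + C (-228622) * X ^ 4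
noncomputable def G1 : ℝ[X] := C (-671) * X ^ 0 + C (20133) * X ^ 1 + C (-28768) * X ^ 2 + C (2133) * X ^ 3 + C (7284) * X ^ 4
noncomputable def A1 : ℝ[X] := C (6042) * X ^ 0 + C (-123656) * X ^ 1 + C (995698) * X ^ 2 + C (-3592848) * X ^ 3 + C (5667280) * X ^ 4 + C (-2913600) * X ^ 5
noncomputable def T2 : ℝ[X] := C (83) * X ^ 0 + C (-1322) * X ^ 1 + C (13386) * X ^ 2 + C (-49612) * X ^ 3 + C (100187) * X ^ 4 + C (-101925) * X ^ 5 + C (39600) * X ^ 6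
noncomputable def B2 : ℝ[X] := C (1059) * X ^ 0 + C (-12880) * X ^ 1 + C (49044) * X ^ 2 + C (-99912) * X ^ 3 + C (101894) * X ^ 4 + C (-39600) * X ^ 5
noncomputable def G2 : ℝ[X] := C (-564) * X ^ 0 + C (1908) * X ^ 1 + C (-3534) * X ^ 2 + C (3096) * X ^ 3 + C (-312) * X ^ 4 + C (-600) * X ^ 5
noncomputable def A2 : ℝ[X] := C (1548) * X ^ 0 + C (-7248) * X ^ 1 + C (16092) * X ^ 2 + C (-18144) * X ^ 3 + C (7920) * X ^ 4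
noncomputable def p1 : ℝ[X] := C (3) * X ^ 0 + C (-10) * X ^ 1 + C (2) * X ^ 2 + C (5) * X ^ 3
noncomputable def p2 : ℝ[X] := C (-12) * X ^ 1 + C (27) * X ^ 2 + C (-15) * X ^ 3
noncomputable def q1 : ℝ[X] := C (1) * X ^ 0 + C (-1) * X ^ 1
noncomputable def q2 : ℝ[X] := C (-2) * X ^ 0 + C (5) * X ^ 1 + C (-3) * X ^ 2

lemma posT1 (t : ℝ) (ht : t ∈ Set.Icc (0 : ℝ) 1) : 0 < (41) * t ^ 0 + (-465) * t ^ 1 + (-11949) * t ^ 2 + (259228) * t ^ 3 + (-468065) * t ^ 4 + (226115) * t ^ 5 := by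
  obtain ⟨h0, h1⟩ := ht
  rcases le_total t (1 / 16 : ℝ) with h2 | h2
  · have a := sub_nonneg.2 h0
    have b := sub_nonneg.2 h2
    have e : (41) * t ^ 0 + (-465) * t ^ 1 + (-11949) * t ^ 2 + (259228) * t ^ 3 + (-468065) * t ^ 4 + (226115) * t ^ 5 = 1 / 2 + ((42467328 : ℝ) * (t - (0 : ℝ)) ^ 0 * ((1 / 16 : ℝ) - t) ^ 5 + (181862400 : ℝ) * (t - (0 : ℝ)) ^ 1 * ((1 / 16 : ℝ) - t) ^ 4 + (253833216 : ℝ) * (t - (0 : ℝ)) ^ 2 * ((1 / 16 : ℝ) - t) ^ 3 + (161360896 : ℝ) * (t - (0 : ℝ)) ^ 3 * ((1 / 16 : ℝ) - t) ^ 2 + (68846064 : ℝ) * (t - (0 : ℝ)) ^ 4 * ((1 / 16 : ℝ) - t) ^ 1 + (22149427 : ℝ) * (t - (0 : ℝ)) ^ 5 * ((1 / 16 : ℝ) - t) ^ 0) := by ring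
    rw [e]; positivity
  rcases le_total t (1 / 8 : ℝ) with h3 | h3
  · have a := sub_nonneg.2 h2
    have b := sub_nonneg.2 h3
    have e : (41) * t ^ 0 + (-465) * t ^ 1 + (-11949) * t ^ 2 + (259228) * t ^ 3 + (-468065) * t ^ 4 + (226115) * t ^ 5 = 1 / 2 + ((22149427 : ℝ) * (t - (1 / 16 : ℝ)) ^ 0 * ((1 / 8 : ℝ) - t) ^ 5 + (152648206 : ℝ) * (t - (1 / 16 : ℝ)) ^ 1 * ((1 / 8 : ℝ) - t) ^ 4 + (496569464 : ℝ) * (t - (1 / 16 : ℝ)) ^ 2 * ((1 / 8 : ℝ) - t) ^ 3 + (833980784 : ℝ) * (t - (1 / 16 : ℝ)) ^ 3 * ((1 / 8 : ℝ) - t) ^ 2 + (671740400 : ℝ) * (t - (1 / 16 : ℝ)) ^ 4 * ((1 / 8 : ℝ) - t) ^ 1 + (204056416 : ℝ) * (t - (1 / 16 : ℝ)) ^ 5 * ((1 / 8 : ℝ) - t) ^ 0) := by ring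
    rw [e]; positivity
  rcases le_total t (1 / 4 : ℝ) with h4 | h4
  · have a := sub_nonneg.2 h3
    have b := sub_nonneg.2 h4
    have e : (41) * t ^ 0 + (-465) * t ^ 1 + (-11949) * t ^ 2 + (259228) * t ^ 3 + (-468065) * t ^ 4 + (226115) * t ^ 5 = 1 / 2 + ((6376763 : ℝ) * (t - (1 / 8 : ℝ)) ^ 0 * ((1 / 4 : ℝ) - t) ^ 5 + (53667670 : ℝ) * (t - (1 / 8 : ℝ)) ^ 1 * ((1 / 4 : ℝ) - t) ^ 4 + (174350968 : ℝ) * (t - (1 / 8 : ℝ)) ^ 2 * ((1 / 4 : ℝ) - t) ^ 3 + (268688176 : ℝ) * (t - (1 / 8 : ℝ)) ^ 3 * ((1 / 4 : ℝ) - t) ^ 2 + (194496368 : ℝ) * (t - (1 / 8 : ℝ)) ^ 4 * ((1 / 4 : ℝ) - t) ^ 1 + (53094368 : ℝ) * (t - (1 / 8 : ℝ)) ^ 5 * ((1 / 4 : ℝ) - t) ^ 0) := by ring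
    rw [e]; positivity
  rcases le_total t (1 / 2 : ℝ) with h5 | h5
  · have a := sub_nonneg.2 h4
    have b := sub_nonneg.2 h5
    have e : (41) * t ^ 0 + (-465) * t ^ 1 + (-11949) * t ^ 2 + (259228) * t ^ 3 + (-468065) * t ^ 4 + (226115) * t ^ 5 = 1 / 2 + ((1659199 : ℝ) * (t - (1 / 4 : ℝ)) ^ 0 * ((1 / 2 : ℝ) - t) ^ 5 + (12731962 : ℝ) * (t - (1 / 4 : ℝ)) ^ 1 * ((1 / 2 : ℝ) - t) ^ 4 + (37041656 : ℝ) * (t - (1 / 4 : ℝ)) ^ 2 * ((1 / 2 : ℝ) - t) ^ 3 + (50244944 : ℝ) * (t - (1 / 4 : ℝ)) ^ 3 * ((1 / 2 : ℝ) - t) ^ 2 + (31255088 : ℝ) * (t - (1 / 4 : ℝ)) ^ 4 * ((1 / 2 : ℝ) - t) ^ 1 + (7205152 : ℝ) * (t - (1 / 4 : ℝ)) ^ 5 * ((1 / 2 : ℝ) - t) ^ 0) := by ring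
    rw [e]; positivity
  have a := sub_nonneg.2 h5
  have b := sub_nonneg.2 h1
  have e : (41) * t ^ 0 + (-465) * t ^ 1 + (-11949) * t ^ 2 + (259228) * t ^ 3 + (-468065) * t ^ 4 + (226115) * t ^ 5 = 1 / 2 + ((225161 : ℝ) * (t - (1 / 2 : ℝ)) ^ 0 * ((1 : ℝ) - t) ^ 5 + (1423972 : ℝ) * (t - (1 / 2 : ℝ)) ^ 1 * ((1 : ℝ) - t) ^ 4 + (3103792 : ℝ) * (t - (1 / 2 : ℝ)) ^ 2 * ((1 : ℝ) - t) ^ 3 + (2572696 : ℝ) * (t - (1 / 2 : ℝ)) ^ 3 * ((1 : ℝ) - t) ^ 2 + (598544 : ℝ) * (t - (1 / 2 : ℝ)) ^ 4 * ((1 : ℝ) - t) ^ 1 + (156944 : ℝ) * (t - (1 / 2 : ℝ)) ^ 5 * ((1 : ℝ) - t) ^ 0) := by ring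
  rw [e]; positivity

lemma posP1 (t : ℝ) (ht : t ∈ Set.Icc (0 : ℝ) 1) : 0 < (41) * t ^ 0 + (890) * t ^ 1 + (2333) * t ^ 2 + (-9534) * t ^ 3 + (8821) * t ^ 4 + (-2507) * t ^ 5 := by
  obtain ⟨h0, h1⟩ := ht
  have a := sub_nonneg.2 h0
  have b := sub_nonneg.2 h1
  have e : (41) * t ^ 0 + (890) * t ^ 1 + (2333) * t ^ 2 + (-9534) * t ^ 3 + (8821) * t ^ 4 + (-2507) * t ^ 5 = 1 / 2 + ((81 / 2 : ℝ) * (t - (0 : ℝ)) ^ 0 * ((1 : ℝ) - t) ^ 5 + (2185 / 2 : ℝ) * (t - (0 : ℝ)) ^ 1 * ((1 : ℝ) - t) ^ 4 + (6298 : ℝ) * (t - (0 : ℝ)) ^ 2 * ((1 : ℝ) - t) ^ 3 + (3210 : ℝ) * (t - (0 : ℝ)) ^ 3 * ((1 : ℝ) - t) ^ 2 + (1029 / 2 : ℝ) * (t - (0 : ℝ)) ^ 4 * ((1 : ℝ) - t) ^ 1 + (87 / 2 : ℝ) * (t - (0 : ℝ)) ^ 5 * ((1 : ℝ) - t) ^ 0) := by ring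
  rw [e]; positivity

lemma posD1 (t : ℝ) (ht : t ∈ Set.Icc (0 : ℝ) 1) : 0 < (1681) * t ^ 0 + (17425) * t ^ 1 + (-1258347) * t ^ 2 + (25536485) * t ^ 3 + (-255504136) * t ^ 4 + (1468423777) * t ^ 5 + (-4370179495) * t ^ 6 + (7136091080) * t ^ 7 + (-6519923836) * t ^ 8 + (3136925826) * t ^ 9 + (-619926961) * t ^ 10 := by
  obtain ⟨h0, h1⟩ := ht
  rcases le_total t (1 / 4 : ℝ) with h2 | h2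
  · have a := sub_nonneg.2 h0
    have b := sub_nonneg.2 h2
    have e : (1681) * t ^ 0 + (17425) * t ^ 1 + (-1258347) * t ^ 2 + (25536485) * t ^ 3 + (-255504136) * t ^ 4 + (1468423777) * t ^ 5 + (-4370179495) * t ^ 6 + (7136091080) * t ^ 7 + (-6519923836) * t ^ 8 + (3136925826) * t ^ 9 + (-619926961) * t ^ 10 = 1 / 2 + ((1762131968 : ℝ) * (t - (0 : ℝ)) ^ 0 * ((1 / 4 : ℝ) - t) ^ 10 + (22189178880 : ℝ) * (t - (0 : ℝ)) ^ 1 * ((1 / 4 : ℝ) - t) ^ 9 + (37939642368 : ℝ) * (t - (0 : ℝ)) ^ 2 * ((1 / 4 : ℝ) - t) ^ 8 + (134552305664 : ℝ) * (t - (0 : ℝ)) ^ 3 * ((1 / 4 : ℝ) - t) ^ 7 + (326854524928 : ℝ) * (t - (0 : ℝ)) ^ 4 * ((1 / 4 : ℝ) - t) ^ 6 + (412035367936 : ℝ) * (t - (0 : ℝ)) ^ 5 * ((1 / 4 : ℝ) - t) ^ 5 + (517937573120 : ℝ) * (t - (0 : ℝ)) ^ 6 * ((1 / 4 : ℝ) - t) ^ 4 + (708051025408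 : ℝ) * (t - (0 : ℝ)) ^ 7 * ((1 / 4 : ℝ) - t) ^ 3 + (612547595328 : ℝ) * (t - (0 : ℝ)) ^ 8 * ((1 / 4 : ℝ) - t) ^ 2 + (265760129160 : ℝ) * (t - (0 : ℝ)) ^ 9 * ((1 / 4 : ℝ) - t) ^ 1 + (44926612375 : ℝ) * (t - (0 : ℝ)) ^ 10 * ((1 / 4 : ℝ) - t) ^ 0) := by ring
    rw [e]; positivity
  rcases le_total t (1 / 2 : ℝ) with h3 | h3
  · have a := sub_nonneg.2 h2
    have b := sub_nonneg.2 h3
    have e : (1681) * t ^ 0 + (17425) * t ^ 1 + (-1258347) * t ^ 2 + (25536485) * t ^ 3 + (-255504136) * t ^ 4 + (1468423777) * t ^ 5 + (-4370179495) * t ^ 6 + (7136091080) * t ^ 7 + (-6519923836) * t ^ 8 + (3136925826) * t ^ 9 + (-619926961) * t ^ 10 = 1 / 2 + ((44926612375 : ℝ) * (t - (1 / 4 : ℝ)) ^ 0 * ((1 / 2 : ℝ) - t) ^ 10 + (632772118340 : ℝ) * (t - (1 / 4 : ℝ)) ^ 1 * ((1 / 2 : ℝ) - t)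 ^ 9 + (3915655497948 : ℝ) * (t - (1 / 4 : ℝ)) ^ 2 * ((1 / 2 : ℝ) - t) ^ 8 + (13952799780800 : ℝ) * (t - (1 / 4 : ℝ)) ^ 3 * ((1 / 2 : ℝ) - t) ^ 7 + (31573164678624 : ℝ) * (t - (1 / 4 : ℝ)) ^ 4 * ((1 / 2 : ℝ) - t) ^ 6 + (47264033887616 : ℝ) * (t - (1 / 4 : ℝ)) ^ 5 * ((1 / 2 : ℝ) - t) ^ 5 + (47350604432768 : ℝ) * (t - (1 / 4 : ℝ)) ^ 6 * ((1 / 2 : ℝ) - t) ^ 4 + (31391909190656 : ℝ) * (t - (1 / 4 : ℝ)) ^ 7 * ((1 / 2 : ℝ) - t) ^ 3 + (13224223664896 : ℝ) * (t - (1 / 4 : ℝ)) ^ 8 * ((1 / 2 : ℝ) - t) ^ 2 + (3210267132928 : ℝ) * (t - (1 / 4 : ℝ)) ^ 9 * ((1 / 2 : ℝ) - t) ^ 1 + (342587296768 : ℝ) * (t - (1 / 4 : ℝ)) ^ 10 * ((1 / 2 : ℝ) - t) ^ 0) := by ring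
    rw [e]; positivity
  have a := sub_nonneg.2 h3
  have b := sub_nonneg.2 h1
  have e : (1681) * t ^ 0 + (17425) * t ^ 1 + (-1258347) * t ^ 2 + (25536485) * t ^ 3 + (-255504136) * t ^ 4 + (1468423777) * t ^ 5 + (-4370179495) * t ^ 6 + (7136091080) * t ^ 7 + (-6519923836) * t ^ 8 + (3136925826) * t ^ 9 + (-619926961) * t ^ 10 = 1 / 2 + ((334557907 : ℝ) * (t - (1 / 2 : ℝ)) ^ 0 * ((1 : ℝ) - t) ^ 10 + (3766684216 : ℝ) * (t - (1 / 2 : ℝ)) ^ 1 * ((1 : ℝ) - t) ^ 9 + (17861645188 : ℝ) * (t - (1 / 2 : ℝ)) ^ 2 * ((1 : ℝ) - t) ^ 8 + (46992126656 : ℝ) * (t - (1 / 2 : ℝ)) ^ 3 * ((1 : ℝ) - t) ^ 7 + (77563070480 : ℝ) * (t - (1 / 2 : ℝ)) ^ 4 * ((1 : ℝ) - t) ^ 6 + (88638680480 : ℝ) * (t - (1 / 2 : ℝ)) ^ 5 * ((1 : ℝ) - t) ^ 5 + (74787301632 : ℝ) * (t - (1 / 2 : ℝ)) ^ 6 * ((1 : ℝ) - t)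 ^ 4 + (43215573632 : ℝ) * (t - (1 / 2 : ℝ)) ^ 7 * ((1 : ℝ) - t) ^ 3 + (13606035456 : ℝ) * (t - (1 / 2 : ℝ)) ^ 8 * ((1 : ℝ) - t) ^ 2 + (2367855104 : ℝ) * (t - (1 / 2 : ℝ)) ^ 9 * ((1 : ℝ) - t) ^ 1 + (208382464 : ℝ) * (t - (1 / 2 : ℝ)) ^ 10 * ((1 : ℝ) - t) ^ 0) := by ring
  rw [e]; positivity

lemma posA1 (t : ℝ) (ht : t ∈ Set.Icc (0 : ℝ) 1) : 0 < (6042) * t ^ 0 + (-123656) * t ^ 1 + (995698) * t ^ 2 + (-3592848) * t ^ 3 + (5667280) * t ^ 4 + (-2913600) * t ^ 5 := by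
  obtain ⟨h0, h1⟩ := ht
  rcases le_total t (1 / 8 : ℝ) with h2 | h2
  · have a := sub_nonneg.2 h0
    have b := sub_nonneg.2 h2
    have e : (6042) * t ^ 0 + (-123656) * t ^ 1 + (995698) * t ^ 2 + (-3592848) * t ^ 3 + (5667280) * t ^ 4 + (-2913600) * t ^ 5 = 1 / 2 + ((197967872 : ℝ) * (t - (0 : ℝ)) ^ 0 * ((1 / 8 : ℝ) - t) ^ 5 + (483344384 : ℝ) * (t - (0 : ℝ)) ^ 1 * ((1 / 8 : ℝ) - t) ^ 4 + (463496192 : ℝ) * (t - (0 : ℝ)) ^ 2 * ((1 / 8 : ℝ) - t) ^ 3 + (240158720 : ℝ) * (t - (0 : ℝ)) ^ 3 * ((1 / 8 : ℝ) - t) ^ 2 + (78705280 : ℝ) * (t - (0 : ℝ)) ^ 4 * ((1 / 8 : ℝ) - t) ^ 1 + (13752640 : ℝ) * (t - (0 : ℝ)) ^ 5 * ((1 / 8 : ℝ) - t) ^ 0) := by ring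
    rw [e]; positivity
  rcases le_total t (1 / 4 : ℝ) with h3 | h3
  · have a := sub_nonneg.2 h2
    have b := sub_nonneg.2 h3
    have e : (6042) * t ^ 0 + (-123656) * t ^ 1 + (995698) * t ^ 2 + (-3592848) * t ^ 3 + (5667280) * t ^ 4 + (-2913600) * t ^ 5 = 1 / 2 + ((13752640 : ℝ) * (t - (1 / 8 : ℝ)) ^ 0 * ((1 / 4 : ℝ) - t) ^ 5 + (58821120 : ℝ) * (t - (1 / 8 : ℝ)) ^ 1 * ((1 / 4 : ℝ) - t) ^ 4 + (160622080 : ℝ) * (t - (1 / 8 : ℝ)) ^ 2 * ((1 / 4 : ℝ) - t) ^ 3 + (188740608 : ℝ) * (t - (1 / 8 : ℝ)) ^ 3 * ((1 / 4 : ℝ) - t) ^ 2 + (92906496 : ℝ) * (t - (1 / 8 : ℝ)) ^ 4 * ((1 / 4 : ℝ) - t) ^ 1 + (16805888 : ℝ) * (t - (1 / 8 : ℝ)) ^ 5 * ((1 / 4 : ℝ) - t) ^ 0) := by ring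
    rw [e]; positivity
  rcases le_total t (1 / 2 : ℝ) with h4 | h4
  · have a := sub_nonneg.2 h3
    have b := sub_nonneg.2 h4
    have e : (6042) * t ^ 0 + (-123656) * t ^ 1 + (995698) * t ^ 2 + (-3592848) * t ^ 3 + (5667280) * t ^ 4 + (-2913600) * t ^ 5 = 1 / 2 + ((525184 : ℝ) * (t - (1 / 4 : ℝ)) ^ 0 * ((1 / 2 : ℝ) - t) ^ 5 + (2071104 : ℝ) * (t - (1 / 4 : ℝ)) ^ 1 * ((1 / 2 : ℝ) - t) ^ 4 + (1179264 : ℝ) * (t - (1 / 4 : ℝ)) ^ 2 * ((1 / 2 : ℝ) - t) ^ 3 + (417920 : ℝ) * (t - (1 / 4 : ℝ)) ^ 3 * ((1 / 2 : ℝ) - t) ^ 2 + (11057664 : ℝ) * (t - (1 / 4 : ℝ)) ^ 4 * ((1 / 2 : ℝ) - t) ^ 1 + (7359488 : ℝ) * (t - (1 / 4 : ℝ)) ^ 5 * ((1 / 2 : ℝ) - t) ^ 0) := by ring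
    rw [e]; positivity
  have a := sub_nonneg.2 h4
  have b := sub_nonneg.2 h1
  have e : (6042) * t ^ 0 + (-123656) * t ^ 1 + (995698) * t ^ 2 + (-3592848) * t ^ 3 + (5667280) * t ^ 4 + (-2913600) * t ^ 5 = 1 / 2 + ((229984 : ℝ) * (t - (1 / 2 : ℝ)) ^ 0 * ((1 : ℝ) - t) ^ 5 + (2758656 : ℝ) * (t - (1 / 2 : ℝ)) ^ 1 * ((1 : ℝ) - t) ^ 4 + (12457552 : ℝ) * (t - (1 / 2 : ℝ)) ^ 2 * ((1 : ℝ) - t) ^ 3 + (24951408 : ℝ) * (t - (1 / 2 : ℝ)) ^ 3 * ((1 : ℝ) - t) ^ 2 + (19181424 : ℝ) * (t - (1 / 2 : ℝ)) ^ 4 * ((1 : ℝ) - t) ^ 1 + (1245296 : ℝ) * (t - (1 / 2 : ℝ)) ^ 5 * ((1 : ℝ) - t) ^ 0) := by ring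
  rw [e]; positivity

lemma ell1 : PosElliptic (coef T1 B1 G1) (fun _ => 1) := by
  refine posElliptic_coef _ _ _ (fun t ht => ?_) (fun t ht => ?_) (fun t ht => ?_)
  · refine (posT1 t ht).le.trans_eq ?_
    simp only [T1, eval_add, eval_mul, eval_C, eval_pow, eval_X]; ring
  · refine (posP1 t ht).le.trans_eq ?_
    simp only [T1, B1, eval_add, eval_mul, eval_C, eval_pow, eval_X]; ring
  · refine (posD1 t ht).trans_eq ?_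
    simp only [T1, B1, G1, eval_add, eval_mul, eval_C, eval_pow, eval_X]; ring

lemma apos1 (x : E2) (hx : x ∈ Metric.closedBall (0 : E2) 1) : 0 < rad A1 x := by
  refine (posA1 _ (mem_Icc_of hx)).trans_eq ?_
  simp only [rad, A1, eval_add, eval_mul, eval_C, eval_pow, eval_X]

lemma posT2 (t : ℝ) (ht : t ∈ Set.Icc (0 : ℝ) 1) : 0 < (82) * t ^ 0 + (-1322) * t ^ 1 + (13386) * t ^ 2 + (-49612) * t ^ 3 + (100187) * t ^ 4 + (-101925) * t ^ 5 + (39600) * t ^ 6 := by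
  obtain ⟨h0, h1⟩ := ht
  rcases le_total t (1 / 4 : ℝ) with h2 | h2
  · have a := sub_nonneg.2 h0
    have b := sub_nonneg.2 h2
    have e : (82) * t ^ 0 + (-1322) * t ^ 1 + (13386) * t ^ 2 + (-49612) * t ^ 3 + (100187) * t ^ 4 + (-101925) * t ^ 5 + (39600) * t ^ 6 = 1 / 2 + ((333824 : ℝ) * (t - (0 : ℝ)) ^ 0 * ((1 / 4 : ℝ) - t) ^ 6 + (649216 : ℝ) * (t - (0 : ℝ)) ^ 1 * ((1 / 4 : ℝ) - t) ^ 5 + (1665536 : ℝ) * (t - (0 : ℝ)) ^ 2 * ((1 / 4 : ℝ) - t) ^ 4 + (3671296 : ℝ) * (t - (0 : ℝ)) ^ 3 * ((1 / 4 : ℝ) - t) ^ 3 + (4108464 : ℝ) * (t - (0 : ℝ)) ^ 4 * ((1 / 4 : ℝ) - t) ^ 2 + (2214348 : ℝ) * (t - (0 : ℝ)) ^ 5 * ((1 / 4 : ℝ) - t) ^ 1 + (466636 : ℝ) * (t - (0 : ℝ)) ^ 6 * ((1 / 4 : ℝ) - t) ^ 0) := by ring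
    rw [e]; positivity
  rcases le_total t (1 / 2 : ℝ) with h3 | h3
  · have a := sub_nonneg.2 h2
    have b := sub_nonneg.2 h3
    have e : (82) * t ^ 0 + (-1322) * t ^ 1 + (13386) * t ^ 2 + (-49612) * t ^ 3 + (100187) * t ^ 4 + (-101925) * t ^ 5 + (39600) * t ^ 6 = 1 / 2 + ((466636 : ℝ) * (t - (1 / 4 : ℝ)) ^ 0 * ((1 / 2 : ℝ) - t) ^ 6 + (3385284 : ℝ) * (t - (1 / 4 : ℝ)) ^ 1 * ((1 / 2 : ℝ) - t) ^ 5 + (9963144 : ℝ) * (t - (1 / 4 : ℝ)) ^ 2 * ((1 / 2 : ℝ) - t) ^ 4 + (15284256 : ℝ) * (t - (1 / 4 : ℝ)) ^ 3 * ((1 / 2 : ℝ) - t) ^ 3 + (13085696 : ℝ) * (t - (1 / 4 : ℝ)) ^ 4 * ((1 / 2 : ℝ) - t) ^ 2 + (5874496 : ℝ) * (t - (1 / 4 : ℝ)) ^ 5 * ((1 / 2 : ℝ) - t) ^ 1 + (1068160 : ℝ) * (t - (1 / 4 : ℝ)) ^ 6 * ((1 / 2 : ℝ) - t) ^ 0) := by ring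
    rw [e]; positivity
  rcases le_total t (3 / 4 : ℝ) with h4 | h4
  · have a := sub_nonneg.2 h3
    have b := sub_nonneg.2 h4
    have e : (82) * t ^ 0 + (-1322) * t ^ 1 + (13386) * t ^ 2 + (-49612) * t ^ 3 + (100187) * t ^ 4 + (-101925) * t ^ 5 + (39600) * t ^ 6 = 1 / 2 + ((1068160 : ℝ) * (t - (1 / 2 : ℝ)) ^ 0 * ((3 / 4 : ℝ) - t) ^ 6 + (6943424 : ℝ) * (t - (1 / 2 : ℝ)) ^ 1 * ((3 / 4 : ℝ) - t) ^ 5 + (18430336 : ℝ) * (t - (1 / 2 : ℝ)) ^ 2 * ((3 / 4 : ℝ) - t) ^ 4 + (25327072 : ℝ) * (t - (1 / 2 : ℝ)) ^ 3 * ((3 / 4 : ℝ) - t) ^ 3 + (18713032 : ℝ) * (t - (1 / 2 : ℝ)) ^ 4 * ((3 / 4 : ℝ) - t) ^ 2 + (6925532 : ℝ) * (t - (1 / 2 : ℝ)) ^ 5 * ((3 / 4 : ℝ) - t) ^ 1 + (1024100 : ℝ) * (t - (1 / 2 : ℝ)) ^ 6 * ((3 / 4 : ℝ) - t) ^ 0) := by ring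
    rw [e]; positivity
  have a := sub_nonneg.2 h4
  have b := sub_nonneg.2 h1
  have e : (82) * t ^ 0 + (-1322) * t ^ 1 + (13386) * t ^ 2 + (-49612) * t ^ 3 + (100187) * t ^ 4 + (-101925) * t ^ 5 + (39600) * t ^ 6 = 1 / 2 + ((1024100 : ℝ) * (t - (3 / 4 : ℝ)) ^ 0 * ((1 : ℝ) - t) ^ 6 + (5363668 : ℝ) * (t - (3 / 4 : ℝ)) ^ 1 * ((1 : ℝ) - t) ^ 5 + (10903712 : ℝ) * (t - (3 / 4 : ℝ)) ^ 2 * ((1 : ℝ) - t) ^ 4 + (11211904 : ℝ) * (t - (3 / 4 : ℝ)) ^ 3 * ((1 : ℝ) - t) ^ 3 + (7322112 : ℝ) * (t - (3 / 4 : ℝ)) ^ 4 * ((1 : ℝ) - t) ^ 2 + (4254720 : ℝ) * (t - (3 / 4 : ℝ)) ^ 5 * ((1 : ℝ) - t) ^ 1 + (1619968 : ℝ) * (t - (3 / 4 : ℝ)) ^ 6 * ((1 : ℝ) - t) ^ 0) := by ring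
  rw [e]; positivity

lemma posP2 (t : ℝ) (ht : t ∈ Set.Icc (0 : ℝ) 1) : 0 < (82) * t ^ 0 + (-263) * t ^ 1 + (506) * t ^ 2 + (-568) * t ^ 3 + (275) * t ^ 4 + (-31) * t ^ 5 := by
  obtain ⟨h0, h1⟩ := ht
  have a := sub_nonneg.2 h0
  have b := sub_nonneg.2 h1
  have e : (82) * t ^ 0 + (-263) * t ^ 1 + (506) * t ^ 2 + (-568) * t ^ 3 + (275) * t ^ 4 + (-31) * t ^ 5 = 1 / 2 + ((163 / 2 : ℝ) * (t - (0 : ℝ)) ^ 0 * ((1 : ℝ) - t) ^ 5 + (289 / 2 : ℝ) * (t - (0 : ℝ)) ^ 1 * ((1 : ℝ) - t) ^ 4 + (269 : ℝ) * (t - (0 : ℝ)) ^ 2 * ((1 : ℝ) - t) ^ 3 + (187 : ℝ) * (t - (0 : ℝ)) ^ 3 * ((1 : ℝ) - t) ^ 2 + (25 / 2 : ℝ) * (t - (0 : ℝ)) ^ 4 * ((1 : ℝ) - t) ^ 1 + (1 / 2 : ℝ) * (t - (0 : ℝ)) ^ 5 * ((1 : ℝ) - t) ^ 0) := by ring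
  rw [e]; positivity

lemma posD2 (t : ℝ) (ht : t ∈ Set.Icc (0 : ℝ) 1) : 0 < (6724) * t ^ 0 + (-129970) * t ^ 1 + (1168734) * t ^ 2 + (-6151986) * t ^ 3 + (21183236) * t ^ 4 + (-50802011) * t ^ 5 + (87994417) * t ^ 6 + (-110557012) * t ^ 7 + (97519565) * t ^ 8 + (-55936868) * t ^ 9 + (17667531) * t ^ 10 + (-1602000) * t ^ 11 + (-360000) * t ^ 12 := by
  obtain ⟨h0, h1⟩ := ht
  rcases le_total t (1 / 2 : ℝ) with h2 | h2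
  · have a := sub_nonneg.2 h0
    have b := sub_nonneg.2 h2
    have e : (6724) * t ^ 0 + (-129970) * t ^ 1 + (1168734) * t ^ 2 + (-6151986) * t ^ 3 + (21183236) * t ^ 4 + (-50802011) * t ^ 5 + (87994417) * t ^ 6 + (-110557012) * t ^ 7 + (97519565) * t ^ 8 + (-55936868) * t ^ 9 + (17667531) * t ^ 10 + (-1602000) * t ^ 11 + (-360000) * t ^ 12 = 1 / 2 + ((27539456 : ℝ) * (t - (0 : ℝ)) ^ 0 * ((1 / 2 : ℝ) - t) ^ 12 + (64294912 : ℝ) * (t - (0 : ℝ)) ^ 1 * ((1 / 2 : ℝ) - t) ^ 11 + (86423552 : ℝ) * (t - (0 : ℝ)) ^ 2 * ((1 / 2 : ℝ) - t) ^ 10 + (236878848 : ℝ) * (t - (0 : ℝ)) ^ 3 * ((1 / 2 : ℝ) - t) ^ 9 + (642387968 : ℝ) * (t - (0 : ℝ)) ^ 4 * ((1 / 2 : ℝ) - t) ^ 8 + (1073562240 : ℝ) * (t - (0 : ℝ)) ^ 5 * ((1 / 2 : ℝ) - t) ^ 7 + (1166384576 : ℝ) * (t - (0 : ℝ)) ^ 6 * ((1 / 2 : ℝ)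 - t) ^ 6 + (928402304 : ℝ) * (t - (0 : ℝ)) ^ 7 * ((1 / 2 : ℝ) - t) ^ 5 + (597155728 : ℝ) * (t - (0 : ℝ)) ^ 8 * ((1 / 2 : ℝ) - t) ^ 4 + (306867104 : ℝ) * (t - (0 : ℝ)) ^ 9 * ((1 / 2 : ℝ) - t) ^ 3 + (111730156 : ℝ) * (t - (0 : ℝ)) ^ 10 * ((1 / 2 : ℝ) - t) ^ 2 + (24297240 : ℝ) * (t - (0 : ℝ)) ^ 11 * ((1 / 2 : ℝ) - t) ^ 1 + (2321212 : ℝ) * (t - (0 : ℝ)) ^ 12 * ((1 / 2 : ℝ) - t) ^ 0) := by ring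
    rw [e]; positivity
  have a := sub_nonneg.2 h2
  have b := sub_nonneg.2 h1
  have e : (6724) * t ^ 0 + (-129970) * t ^ 1 + (1168734) * t ^ 2 + (-6151986) * t ^ 3 + (21183236) * t ^ 4 + (-50802011) * t ^ 5 + (87994417) * t ^ 6 + (-110557012) * t ^ 7 + (97519565) * t ^ 8 + (-55936868) * t ^ 9 + (17667531) * t ^ 10 + (-1602000) * t ^ 11 + (-360000) * t ^ 12 = 1 / 2 + ((2321212 : ℝ) * (t - (1 / 2 : ℝ)) ^ 0 * ((1 : ℝ) - t) ^ 12 + (31411848 : ℝ) * (t - (1 / 2 : ℝ)) ^ 1 * ((1 : ℝ) - t) ^ 11 + (189990844 : ℝ) * (t - (1 / 2 : ℝ)) ^ 2 * ((1 : ℝ) - t) ^ 10 + (667676336 : ℝ) * (t - (1 / 2 : ℝ)) ^ 3 * ((1 : ℝ) - t) ^ 9 + (1496618176 : ℝ) * (t - (1 / 2 : ℝ)) ^ 4 * ((1 : ℝ) - t) ^ 8 + (2237545856 : ℝ) * (t - (1 / 2 : ℝ)) ^ 5 * ((1 : ℝ) - t) ^ 7 + (2305620800 : ℝ) * (t - (1 / 2 :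 ℝ)) ^ 6 * ((1 : ℝ) - t) ^ 6 + (1705316992 : ℝ) * (t - (1 / 2 : ℝ)) ^ 7 * ((1 : ℝ) - t) ^ 5 + (945310720 : ℝ) * (t - (1 / 2 : ℝ)) ^ 8 * ((1 : ℝ) - t) ^ 4 + (382588928 : ℝ) * (t - (1 / 2 : ℝ)) ^ 9 * ((1 : ℝ) - t) ^ 3 + (100792320 : ℝ) * (t - (1 / 2 : ℝ)) ^ 10 * ((1 : ℝ) - t) ^ 2 + (17946624 : ℝ) * (t - (1 / 2 : ℝ)) ^ 11 * ((1 : ℝ) - t) ^ 1 + (1472512 : ℝ) * (t - (1 / 2 : ℝ)) ^ 12 * ((1 : ℝ) - t) ^ 0) := by ring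
  rw [e]; positivity

lemma posA2 (t : ℝ) (ht : t ∈ Set.Icc (0 : ℝ) 1) : 0 < (1548) * t ^ 0 + (-7248) * t ^ 1 + (16092) * t ^ 2 + (-18144) * t ^ 3 + (7920) * t ^ 4 := by
  obtain ⟨h0, h1⟩ := ht
  rcases le_total t (1 / 2 : ℝ) with h2 | h2
  · have a := sub_nonneg.2 h0
    have b := sub_nonneg.2 h2
    have e : (1548) * t ^ 0 + (-7248) * t ^ 1 + (16092) * t ^ 2 + (-18144) * t ^ 3 + (7920) * t ^ 4 = 1 / 2 + ((24760 : ℝ) * (t - (0 : ℝ)) ^ 0 * ((1 / 2 : ℝ) - t) ^ 4 + (41056 : ℝ) * (t - (0 : ℝ)) ^ 1 * ((1 / 2 : ℝ) - t) ^ 3 + (38976 : ℝ) * (t - (0 : ℝ)) ^ 2 * ((1 / 2 : ℝ) - t) ^ 2 + (17536 : ℝ) * (t - (0 : ℝ)) ^ 3 * ((1 / 2 : ℝ) - t) ^ 1 + (2776 : ℝ) * (t - (0 : ℝ)) ^ 4 * ((1 / 2 : ℝ) - t) ^ 0) := by ring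
    rw [e]; positivity
  rcases le_total t (3 / 4 : ℝ) with h3 | h3
  · have a := sub_nonneg.2 h2
    have b := sub_nonneg.2 h3
    have e : (1548) * t ^ 0 + (-7248) * t ^ 1 + (16092) * t ^ 2 + (-18144) * t ^ 3 + (7920) * t ^ 4 = 1 / 2 + ((44416 : ℝ) * (t - (1 / 2 : ℝ)) ^ 0 * ((3 / 4 : ℝ) - t) ^ 4 + (126208 : ℝ) * (t - (1 / 2 : ℝ)) ^ 1 * ((3 / 4 : ℝ) - t) ^ 3 + (124224 : ℝ) * (t - (1 / 2 : ℝ)) ^ 2 * ((3 / 4 : ℝ) - t) ^ 2 + (38272 : ℝ) * (t - (1 / 2 : ℝ)) ^ 3 * ((3 / 4 : ℝ) - t) ^ 1 + (3760 : ℝ) * (t - (1 / 2 : ℝ)) ^ 4 * ((3 / 4 : ℝ) - t) ^ 0) := by ring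
    rw [e]; positivity
  rcases le_total t (13 / 16 : ℝ) with h4 | h4
  · have a := sub_nonneg.2 h3
    have b := sub_nonneg.2 h4
    have e : (1548) * t ^ 0 + (-7248) * t ^ 1 + (16092) * t ^ 2 + (-18144) * t ^ 3 + (7920) * t ^ 4 = 1 / 2 + ((962560 : ℝ) * (t - (3 / 4 : ℝ)) ^ 0 * ((13 / 16 : ℝ) - t) ^ 4 + (2363392 : ℝ) * (t - (3 / 4 : ℝ)) ^ 1 * ((13 / 16 : ℝ) - t) ^ 3 + (1826304 : ℝ) * (t - (3 / 4 : ℝ)) ^ 2 * ((13 / 16 : ℝ) - t) ^ 2 + (502528 : ℝ) * (t - (3 / 4 : ℝ)) ^ 3 * ((13 / 16 : ℝ) - t) ^ 1 + (84976 : ℝ) * (t - (3 / 4 : ℝ)) ^ 4 * ((13 / 16 : ℝ) - t) ^ 0) := by ring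
    rw [e]; positivity
  rcases le_total t (7 / 8 : ℝ) with h5 | h5
  · have a := sub_nonneg.2 h4
    have b := sub_nonneg.2 h5
    have e : (1548) * t ^ 0 + (-7248) * t ^ 1 + (16092) * t ^ 2 + (-18144) * t ^ 3 + (7920) * t ^ 4 = 1 / 2 + ((84976 : ℝ) * (t - (13 / 16 : ℝ)) ^ 0 * ((7 / 8 : ℝ) - t) ^ 4 + (177280 : ℝ) * (t - (13 / 16 : ℝ)) ^ 1 * ((7 / 8 : ℝ) - t) ^ 3 + (850560 : ℝ) * (t - (13 / 16 : ℝ)) ^ 2 * ((7 / 8 : ℝ) - t) ^ 2 + (1630720 : ℝ) * (t - (13 / 16 : ℝ)) ^ 3 * ((7 / 8 : ℝ) - t) ^ 1 + (880384 : ℝ) * (t - (13 / 16 : ℝ)) ^ 4 * ((7 / 8 : ℝ) - t) ^ 0) := by ring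
    rw [e]; positivity
  have a := sub_nonneg.2 h5
  have b := sub_nonneg.2 h1
  have e : (1548) * t ^ 0 + (-7248) * t ^ 1 + (16092) * t ^ 2 + (-18144) * t ^ 3 + (7920) * t ^ 4 = 1 / 2 + ((55024 : ℝ) * (t - (7 / 8 : ℝ)) ^ 0 * ((1 : ℝ) - t) ^ 4 + (456448 : ℝ) * (t - (7 / 8 : ℝ)) ^ 1 * ((1 : ℝ) - t) ^ 3 + (1349376 : ℝ) * (t - (7 / 8 : ℝ)) ^ 2 * ((1 : ℝ) - t) ^ 2 + (1626112 : ℝ) * (t - (7 / 8 : ℝ)) ^ 3 * ((1 : ℝ) - t) ^ 1 + (686080 : ℝ) * (t - (7 / 8 : ℝ)) ^ 4 * ((1 : ℝ) - t) ^ 0) := by ring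
  rw [e]; positivity

lemma ell2 : PosElliptic (coef T2 B2 G2) (fun _ => 1) := by
  refine posElliptic_coef _ _ _ (fun t ht => ?_) (fun t ht => ?_) (fun t ht => ?_)
  · refine (posT2 t ht).le.trans_eq ?_
    simp only [T2, eval_add, eval_mul, eval_C, eval_pow, eval_X]; ring
  · refine (posP2 t ht).le.trans_eq ?_
    simp only [T2, B2, eval_add, eval_mul, eval_C, eval_pow, eval_X]; ring
  · refine (posD2 t ht).trans_eq ?_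
    simp only [T2, B2, G2, eval_add, eval_mul, eval_C, eval_pow, eval_X]; ring

lemma apos2 (x : E2) (hx : x ∈ Metric.closedBall (0 : E2) 1) : 0 < rad A2 x := by
  refine (posA2 _ (mem_Icc_of hx)).trans_eq ?_
  simp only [rad, A2, eval_add, eval_mul, eval_C, eval_pow, eval_X]

lemma eq1 (t : ℝ) : (red T1 B1 G1 p1 p2).eval t = -(A1.eval t * q1.eval t) := by
  simp only [red, T1, B1, G1, A1, p1, p2, q1, eval_add, eval_sub, eval_mul, eval_C, eval_X, eval_pow, eval_neg, map_neg,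
    derivative_add, derivative_C_mul, derivative_X_pow, Nat.cast_ofNat, Nat.cast_zero, Nat.cast_one]
  norm_num
  ring

lemma eq2 (t : ℝ) : (red T1 B1 G1 p2 (-p1)).eval t = -(A1.eval t * q2.eval t) := by
  simp only [red, T1, B1, G1, A1, p1, p2, q2, eval_add, eval_sub, eval_mul, eval_C, eval_X, eval_pow, eval_neg, map_neg,
    derivative_add, derivative_C_mul, derivative_X_pow, Nat.cast_ofNat, Nat.cast_zero, Nat.cast_one]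
  norm_num
  ring

lemma eq3 (t : ℝ) : (red T2 B2 G2 q1 q2).eval t = A2.eval t * p1.eval t := by
  simp only [red, T2, B2, G2, A2, q1, q2, p1, eval_add, eval_sub, eval_mul, eval_C, eval_X, eval_pow, eval_neg, map_neg,
    derivative_add, derivative_C_mul, derivative_X_pow, Nat.cast_ofNat, Nat.cast_zero, Nat.cast_one]
  norm_num
  ring

lemma eq4 (t : ℝ) : (red T2 B2 G2 q2 (-q1)).eval t = A2.eval t * p2.eval t := by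
  simp only [red, T2, B2, G2, A2, q1, q2, p2, eval_add, eval_sub, eval_mul, eval_C, eval_X, eval_pow, eval_neg, map_neg,
    derivative_add, derivative_C_mul, derivative_X_pow, Nat.cast_ofNat, Nat.cast_zero, Nat.cast_one]
  norm_num
  ring

theorem counterexample :
    ∃ (A B : Fin 2 → Fin 2 → E2 → ℝ) (c d a b u v : E2 → ℝ),
      PosElliptic A c ∧ PosElliptic B d ∧
      ContDiff ℝ ∞ a ∧ ContDiff ℝ ∞ b ∧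
      (∀ x ∈ Metric.closedBall (0 : E2) 1, 0 < a x ∧ 0 < b x) ∧
      ContDiff ℝ ∞ u ∧ ContDiff ℝ ∞ v ∧
      (∀ x ∈ Metric.ball (0 : E2) 1,
        divOp A c u x + a x * v x = 0 ∧ -(b x * u x) + divOp B d v x = 0) ∧
      (∀ x ∈ Metric.sphere (0 : E2) 1, u x = 0 ∧ v x = 0) ∧
      (∃ x ∈ Metric.ball (0 : E2) 1, u x ≠ 0 ∧ v x ≠ 0) := by
  refine ⟨coef T1 B1 G1, coef T2 B2 G2, fun _ => 1, fun _ => 1, rad A1, rad A2, mode p1 p2,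
    mode q1 q2, ell1, ell2, contDiff_rad _, contDiff_rad _, fun x hx => ⟨apos1 x hx, apos2 x hx⟩,
    contDiff_mode _ _, contDiff_mode _ _, fun x _ => ⟨?_, ?_⟩, fun x hx => ⟨?_, ?_⟩, ?_⟩
  · rw [divOp_mode]
    simp only [mode, rad, eq1, eq2]; ring
  · rw [divOp_mode]
    simp only [mode, rad, eq3, eq4]; ring
  · simp only [mode, rad, eq_one_of hx, p1, p2, eval_add, eval_mul, eval_C, eval_pow, eval_X]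
    norm_num
  · simp only [mode, rad, eq_one_of hx, q1, q2, eval_add, eval_mul, eval_C, eval_pow, eval_X]
    norm_num
  · refine ⟨EuclideanSpace.single 0 (1 / 2), ?_, ?_, ?_⟩
    · simp; norm_num
    · simp [mode, rad, p1, p2]; norm_num
    · simp [mode, rad, q1, q2]; norm_num

end Pool.Agent.Lib.MP_f60174_an
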