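import Pool.Agent.Lib.MP_f60174_an.Defs

namespace Pool.Agent.Lib.MP_f60174_an

open MeasureTheory Metric Set Filter Topology
open scoped ContDiff

lemma uniq : UniqueDiffOn ℝ (closedBall (0 : E2) 1) :=
  uniqueDiffOn_convex (convex_closedBall _ _)
    ⟨0, ball_subset_interior_closedBall (mem_ball_self one_pos)⟩

lemma nhds_cb {x : E2} (hx : x ∈ ball (0 : E2) 1) : closedBall (0 : E2) 1 ∈ 𝓝 x :=
  mem_of_superset (isOpen_ball.mem_nhds hx) ball_subset_closedBall

lemma intOn {f : E2 → ℝ} (hf : ContinuousOn f (closedBall 0 1)) :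
    IntegrableOn f (ball (0 : E2) 1) :=
  (hf.integrableOn_compact (isCompact_closedBall _ _)).mono_set ball_subset_closedBall

lemma lip_ext {F : E2 → ℝ} {K : NNReal} (hK : LipschitzOnWith K F (closedBall 0 1))
    (h0 : ∀ x ∈ sphere (0 : E2) 1, F x = 0) :
    LipschitzWith K ((ball (0 : E2) 1).indicator F) := by
  have key : ∀ x ∈ ball (0 : E2) 1, ∀ y, y ∉ ball (0 : E2) 1 → |F x| ≤ K * dist x y := by
    intro x hx y hy
    have hx' : ‖x‖ < 1 := by simpa using hx
    have hy' : 1 ≤ ‖y‖ := by simpa using hy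
    have hc : ContinuousOn (fun s : ℝ => ‖x + s • (y - x)‖) (Icc 0 1) := by fun_prop
    obtain ⟨s, hs, hs1⟩ := intermediate_value_Icc zero_le_one hc
      (show (1 : ℝ) ∈ Icc _ _ from ⟨by simpa using hx'.le, by simpa using hy'⟩)
    have hz : x + s • (y - x) ∈ sphere (0 : E2) 1 := by simpa using hs1
    have h1 := hK.dist_le_mul x (ball_subset_closedBall hx) _ (sphere_subset_closedBall hz)
    rw [h0 _ hz, Real.dist_eq, sub_zero] at h1
    refine h1.trans (mul_le_mul_of_nonneg_left ?_ K.2)
    rw [dist_eq_norm, dist_eq_norm, sub_add_cancel_left, norm_neg, norm_smul, norm_sub_rev,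
      Real.norm_eq_abs, abs_of_nonneg hs.1]
    exact mul_le_of_le_one_left (norm_nonneg _) hs.2
  refine LipschitzWith.of_dist_le_mul fun x y => ?_
  by_cases hx : x ∈ ball (0 : E2) 1 <;> by_cases hy : y ∈ ball (0 : E2) 1
  · rw [indicator_of_mem hx, indicator_of_mem hy]
    exact hK.dist_le_mul x (ball_subset_closedBall hx) y (ball_subset_closedBall hy)
  · rw [indicator_of_mem hx, indicator_of_notMem hy, Real.dist_eq, sub_zero]
    exact key x hx y hy
  · rw [indicator_of_mem hy, indicator_of_notMem hx, dist_comm, Real.dist_eq, sub_zero, dist_comm]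
    exact key y hy x hx
  · rw [indicator_of_notMem hx, indicator_of_notMem hy, dist_self]
    positivity

lemma integral_fderiv_zero {F : E2 → ℝ} (hF : ContDiffOn ℝ 1 F (closedBall 0 1))
    (h0 : ∀ x ∈ sphere (0 : E2) 1, F x = 0) (e : E2) :
    ∫ x in ball (0 : E2) 1, fderiv ℝ F x e = 0 := by
  obtain ⟨K, hK⟩ := hF.exists_lipschitzOnWith one_ne_zero (convex_closedBall _ _)
    (isCompact_closedBall _ _)
  have hG := lip_ext hK h0
  have hc : HasCompactSupport ((ball (0 : E2) 1).indicator F) :=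
    HasCompactSupport.intro (isCompact_closedBall (0 : E2) 1) fun x hx =>
      indicator_of_notMem (fun h => hx (ball_subset_closedBall h)) _
  have h1 := (LipschitzWith.const (α := E2) (1 : ℝ)).integral_lineDeriv_mul_eq
    (μ := volume) hG hc (-e)
  simp only [neg_neg, mul_one] at h1
  have h2 : ∀ x : E2, lineDeriv ℝ (fun _ : E2 => (1 : ℝ)) x (-e) = 0 := fun x => by
    simp [lineDeriv]
  simp only [h2, zero_mul, integral_zero] at h1
  rw [← integral_indicator measurableSet_ball, h1]
  refine integral_congr_ae ?_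
  have hs : ∀ᵐ x : E2, x ∉ sphere (0 : E2) 1 :=
    measure_eq_zero_iff_ae_notMem.1 (Measure.addHaar_sphere volume 0 1)
  filter_upwards [hs] with x hx
  by_cases hb : x ∈ ball (0 : E2) 1
  · rw [indicator_of_mem hb]
    have he : (ball (0 : E2) 1).indicator F =ᶠ[𝓝 x] F := by
      filter_upwards [isOpen_ball.mem_nhds hb] with y hy using indicator_of_mem hy _
    rw [he.lineDeriv_eq]
    exact (((hF.contDiffAt (nhds_cb hb)).differentiableAt one_ne_zero).lineDeriv_eq_fderiv).symm
  · rw [indicator_of_notMem hb]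
    have hcb : x ∉ closedBall (0 : E2) 1 := by
      intro h
      rw [← ball_union_sphere] at h
      exact h.elim hb hx
    have he : (ball (0 : E2) 1).indicator F =ᶠ[𝓝 x] fun _ => 0 := by
      filter_upwards [isClosed_closedBall.isOpen_compl.mem_nhds hcb] with y hy
      exact indicator_of_notMem (fun h => hy (ball_subset_closedBall h)) _
    rw [he.lineDeriv_eq]
    simp [lineDeriv]

lemma positive_of (A : Fin 2 → Fin 2 → E2 → ℝ) (hA : ∀ i j, ContDiff ℝ ∞ (A i j))
    (hell : ∀ x ∈ closedBall (0 : E2) 1, ∀ ξ : Fin 2 → ℝ, 0 ≤ ∑ i, ∑ j, A i j x * ξ i * ξ j)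
    (w : E2 → ℝ) (hw : ContDiffOn ℝ 2 w (closedBall 0 1))
    (h0 : ∀ x ∈ sphere (0 : E2) 1, w x = 0) :
    1 * ∫ x in ball (0 : E2) 1, w x ^ 2 ≤
      ∫ x in ball (0 : E2) 1, divOp A (fun _ => 1) w x * w x := by
  set D : Fin 2 → E2 → ℝ := fun j y =>
    fderivWithin ℝ w (closedBall 0 1) y (EuclideanSpace.single j 1) with hD
  have hD1 : ∀ j, ContDiffOn ℝ 1 (D j) (closedBall 0 1) := fun j =>
    (hw.fderivWithin uniq (m := 1) (by norm_num)).clm_apply contDiffOn_const
  have hw1 : ContDiffOn ℝ 1 w (closedBall 0 1) := hw.of_le (by norm_num)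
  have hA1 : ∀ i j, ContDiffOn ℝ 1 (A i j) (closedBall 0 1) := fun i j =>
    ((hA i j).of_le (by simp)).contDiffOn
  have hDp : ∀ j, ∀ y ∈ ball (0 : E2) 1, pd j w y = D j y := fun j y hy => by
    simp only [hD, pd, fderivWithin_of_mem_nhds (nhds_cb hy)]
  set F : Fin 2 → Fin 2 → E2 → ℝ := fun i j y => (A i j y * D j y) * w y with hF
  have hF1 : ∀ i j, ContDiffOn ℝ 1 (F i j) (closedBall 0 1) := fun i j =>
    ((hA1 i j).mul (hD1 j)).mul hw1
  have hFi : ∀ i j, IntegrableOn (fun x => fderiv ℝ (F i j) x (EuclideanSpace.single i 1))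
      (ball (0 : E2) 1) := fun i j => by
    have : ContinuousOn (fun x => fderivWithin ℝ (F i j) (closedBall 0 1) x
        (EuclideanSpace.single i 1)) (closedBall 0 1) :=
      (((hF1 i j).fderivWithin uniq (m := 0) (by norm_num)).clm_apply
        contDiffOn_const).continuousOn
    refine (intOn this).congr_fun (fun y hy => ?_) measurableSet_ball
    simp only [fderivWithin_of_mem_nhds (nhds_cb hy)]
  have hz : ∀ i j, ∫ x in ball (0 : E2) 1, fderiv ℝ (F i j) x (EuclideanSpace.single i 1) = 0 :=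
    fun i j => integral_fderiv_zero (hF1 i j) (fun x hx => by simp [hF, h0 x hx]) _
  have hpt : ∀ x ∈ ball (0 : E2) 1, divOp A (fun _ => 1) w x * w x =
      (w x ^ 2 + ∑ i, ∑ j, A i j x * D i x * D j x) -
        ∑ i, ∑ j, fderiv ℝ (F i j) x (EuclideanSpace.single i 1) := by
    intro x hx
    have e1 : ∀ i j, fderiv ℝ (F i j) x (EuclideanSpace.single i 1) =
        pd i (fun y => A i j y * pd j w y) x * w x + A i j x * D i x * D j x := by
      intro i j
      have he : (fun y => A i j y * pd j w y) =ᶠ[𝓝 x] fun y => A i j y * D j y := by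
        filter_upwards [isOpen_ball.mem_nhds hx] with y hy
        rw [hDp j y hy]
      have d1 : DifferentiableAt ℝ (fun y => A i j y * D j y) x :=
        (((hA1 i j).mul (hD1 j)).contDiffAt (nhds_cb hx)).differentiableAt one_ne_zero
      have d2 : DifferentiableAt ℝ w x :=
        (hw1.contDiffAt (nhds_cb hx)).differentiableAt one_ne_zero
      have := fderiv_mul d1 d2
      have e : F i j = (fun y => A i j y * D j y) * w := rfl
      rw [e, this, pd, he.fderiv_eq, ← hDp i x hx, pd]
      simp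
      ring
    simp only [e1, divOp, Fin.sum_univ_two]
    ring
  have hq : IntegrableOn (fun x => ∑ i, ∑ j, A i j x * D i x * D j x) (ball (0 : E2) 1) :=
    intOn (continuousOn_finsetSum _ fun i _ => continuousOn_finsetSum _ fun j _ =>
      (((hA1 i j).mul (hD1 i)).mul (hD1 j)).continuousOn)
  have hw2 : IntegrableOn (fun x => w x ^ 2) (ball (0 : E2) 1) := intOn (hw1.continuousOn.pow 2)
  have hsum : IntegrableOn (fun x => w x ^ 2 + ∑ i, ∑ j, A i j x * D i x * D j x)
      (ball (0 : E2) 1) := hw2.add hq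
  rw [setIntegral_congr_fun measurableSet_ball hpt, integral_sub hsum
    (integrable_finsetSum _ fun i _ => integrable_finsetSum _ fun j _ => hFi i j),
    integral_finsetSum _ fun i _ => integrable_finsetSum _ fun j _ => hFi i j]
  simp only [integral_finsetSum _ fun j _ => hFi _ j, hz, Finset.sum_const_zero, sub_zero,
    one_mul]
  rw [integral_add hw2 hq]
  have : 0 ≤ ∫ x in ball (0 : E2) 1, ∑ i, ∑ j, A i j x * D i x * D j x :=
    setIntegral_nonneg measurableSet_ball fun x hx =>
      hell x (ball_subset_closedBall hx) fun i => D i x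
  linarith

end Pool.Agent.Lib.MP_f60174_an
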