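import Pool.Agent.Lib.MP_f60174_an.IBP

namespace Pool.Agent.Lib.MP_f60174_an

open Polynomial
open scoped ContDiff

noncomputable def rad (P : ℝ[X]) (x : E2) : ℝ := P.eval (x 0 ^ 2 + x 1 ^ 2)

lemma contDiff_rad (P : ℝ[X]) : ContDiff ℝ ∞ (rad P) := by
  have h : ContDiff ℝ ∞ (fun t : ℝ => P.eval t) := by
    simpa using P.contDiff_aeval (𝕜 := ℝ) ∞
  have h2 : ContDiff ℝ ∞ (fun x : E2 => x 0 ^ 2 + x 1 ^ 2) := by fun_prop
  exact h.comp h2

/-- `f` is differentiable at `x` with coordinate derivatives `a`, `b`. -/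
def HasPD (f : E2 → ℝ) (x : E2) (a b : ℝ) : Prop :=
  DifferentiableAt ℝ f x ∧ pd 0 f x = a ∧ pd 1 f x = b

lemma HasPD.mul {f g : E2 → ℝ} {x : E2} {a b c d : ℝ} (hf : HasPD f x a b) (hg : HasPD g x c d) :
    HasPD (fun y => f y * g y) x (a * g x + f x * c) (b * g x + f x * d) := by
  obtain ⟨h1, rfl, rfl⟩ := hf
  obtain ⟨h2, rfl, rfl⟩ := hg
  refine ⟨h1.mul h2, ?_, ?_⟩ <;>
  · simp only [pd, fderiv_fun_mul h1 h2]
    simp
    ring

lemma HasPD.add {f g : E2 → ℝ} {x : E2} {a b c d : ℝ} (hf : HasPD f x a b) (hg : HasPD g x c d) :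
    HasPD (fun y => f y + g y) x (a + c) (b + d) := by
  obtain ⟨h1, rfl, rfl⟩ := hf
  obtain ⟨h2, rfl, rfl⟩ := hg
  refine ⟨h1.add h2, ?_, ?_⟩ <;>
  · simp only [pd, fderiv_fun_add h1 h2]
    simp

lemma HasPD.sub {f g : E2 → ℝ} {x : E2} {a b c d : ℝ} (hf : HasPD f x a b) (hg : HasPD g x c d) :
    HasPD (fun y => f y - g y) x (a - c) (b - d) := by
  obtain ⟨h1, rfl, rfl⟩ := hf
  obtain ⟨h2, rfl, rfl⟩ := hg
  refine ⟨h1.sub h2, ?_, ?_⟩ <;>
  · simp only [pd, fderiv_fun_sub h1 h2]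
    simp

lemma hasPD_const (c : ℝ) (x : E2) : HasPD (fun _ => c) x 0 0 := by
  refine ⟨differentiableAt_const _, ?_, ?_⟩ <;> simp [pd]

lemma hasFD_coord (j : Fin 2) (x : E2) :
    HasFDerivAt (fun y : E2 => y j) (EuclideanSpace.proj (𝕜 := ℝ) j) x :=
  (EuclideanSpace.proj (𝕜 := ℝ) j).hasFDerivAt

lemma hasPD_x (x : E2) : HasPD (fun y => y 0) x 1 0 := by
  refine ⟨(hasFD_coord 0 x).differentiableAt, ?_, ?_⟩ <;> simp [pd, (hasFD_coord 0 x).fderiv]

lemma hasPD_y (x : E2) : HasPD (fun y => y 1) x 0 1 := by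
  refine ⟨(hasFD_coord 1 x).differentiableAt, ?_, ?_⟩ <;> simp [pd, (hasFD_coord 1 x).fderiv]

lemma hasPD_rad (P : ℝ[X]) (x : E2) :
    HasPD (rad P) x (2 * x 0 * rad (derivative P) x) (2 * x 1 * rad (derivative P) x) := by
  have h := (P.hasDerivAt (x 0 ^ 2 + x 1 ^ 2)).comp_hasFDerivAt x
    (((hasFD_coord 0 x).pow 2).add ((hasFD_coord 1 x).pow 2))
  have h' : HasFDerivAt (rad P) _ x := h
  refine ⟨h'.differentiableAt, ?_, ?_⟩ <;>
  · simp only [pd, h'.fderiv]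
    simp [rad]
    ring

noncomputable def mode (p q : ℝ[X]) (x : E2) : ℝ := x 0 * rad p x - x 1 * rad q x

noncomputable def c00 (T B G : ℝ[X]) (x : E2) : ℝ :=
  rad T x + x 0 * x 0 * rad B x - 2 * x 0 * x 1 * rad G x
noncomputable def c01 (B G : ℝ[X]) (x : E2) : ℝ :=
  x 0 * x 1 * rad B x + (x 0 * x 0 - x 1 * x 1) * rad G x
noncomputable def c11 (T B G : ℝ[X]) (x : E2) : ℝ :=
  rad T x + x 1 * x 1 * rad B x + 2 * x 0 * x 1 * rad G x

noncomputable def coef (T B G : ℝ[X]) : Fin 2 → Fin 2 → E2 → ℝ :=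
  ![![c00 T B G, c01 B G], ![c01 B G, c11 T B G]]

lemma contDiff_mode (p q : ℝ[X]) : ContDiff ℝ ∞ (mode p q) := by
  have h1 := contDiff_rad p
  have h2 := contDiff_rad q
  unfold mode
  fun_prop

lemma contDiff_coef (T B G : ℝ[X]) (i j : Fin 2) : ContDiff ℝ ∞ (coef T B G i j) := by
  have h1 := contDiff_rad T
  have h2 := contDiff_rad B
  have h3 := contDiff_rad G
  have a : ContDiff ℝ ∞ (c00 T B G) := by unfold c00; fun_prop
  have b : ContDiff ℝ ∞ (c01 B G) := by unfold c01; fun_prop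
  have c : ContDiff ℝ ∞ (c11 T B G) := by unfold c11; fun_prop
  fin_cases i <;> fin_cases j <;> simpa [coef]

lemma pd0_mode (p q : ℝ[X]) : pd 0 (mode p q) = fun x =>
    rad p x + 2 * x 0 * x 0 * rad (derivative p) x - 2 * x 0 * x 1 * rad (derivative q) x := by
  funext x
  have h := ((hasPD_x x).mul (hasPD_rad p x)).sub ((hasPD_y x).mul (hasPD_rad q x))
  have e := h.2.1
  unfold mode
  rw [e]; ring

lemma pd1_mode (p q : ℝ[X]) : pd 1 (mode p q) = fun x =>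
    2 * x 0 * x 1 * rad (derivative p) x - rad q x - 2 * x 1 * x 1 * rad (derivative q) x := by
  funext x
  have h := ((hasPD_x x).mul (hasPD_rad p x)).sub ((hasPD_y x).mul (hasPD_rad q x))
  have e := h.2.2
  unfold mode
  rw [e]; ring

/-- Real part of the radial reduction of the operator. -/
noncomputable def red (T B G p q : ℝ[X]) : ℝ[X] :=
  p - (T * (C 8 * derivative p + C 4 * X * derivative (derivative p))
    + C 2 * derivative T * (p + C 2 * X * derivative p)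
    + B * (C 3 * p + C 12 * X * derivative p + C 4 * X ^ 2 * derivative (derivative p))
    + C 2 * X * derivative B * (p + C 2 * X * derivative p)
    - G * (C 4 * q + C 4 * X * derivative q) - C 2 * X * derivative G * q)

lemma divOp_mode (T B G p q : ℝ[X]) (x : E2) :
    divOp (coef T B G) (fun _ => 1) (mode p q) x = mode (red T B G p q) (red T B G q (-p)) x := by
  have hx := hasPD_x x
  have hy := hasPD_y x
  have h2 := hasPD_const 2 x
  have a00 : HasPD (c00 T B G) x _ _ := ((hasPD_rad T x).add ((hx.mul hx).mul (hasPD_rad B x))).sub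
    (((h2.mul hx).mul hy).mul (hasPD_rad G x))
  have a01 : HasPD (c01 B G) x _ _ := ((hx.mul hy).mul (hasPD_rad B x)).add
    (((hx.mul hx).sub (hy.mul hy)).mul (hasPD_rad G x))
  have a11 : HasPD (c11 T B G) x _ _ := ((hasPD_rad T x).add ((hy.mul hy).mul (hasPD_rad B x))).add
    (((h2.mul hx).mul hy).mul (hasPD_rad G x))
  have u0 := ((hasPD_rad p x).add (((h2.mul hx).mul hx).mul (hasPD_rad (derivative p) x))).sub
    (((h2.mul hx).mul hy).mul (hasPD_rad (derivative q) x))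
  have u1 := ((((h2.mul hx).mul hy).mul (hasPD_rad (derivative p) x)).sub (hasPD_rad q x)).sub
    (((h2.mul hy).mul hy).mul (hasPD_rad (derivative q) x))
  have e00 := (a00.mul u0).2.1
  have e01 := (a01.mul u1).2.1
  have e10 := (a01.mul u0).2.2
  have e11 := (a11.mul u1).2.2
  simp only [divOp, Fin.sum_univ_two, coef, pd0_mode, pd1_mode, Matrix.cons_val_zero,
    Matrix.cons_val_one, Matrix.cons_val_fin_one]
  rw [e00, e01, e10, e11]
  simp only [mode, red, rad, c00, c01, c11, eval_add, eval_sub, eval_mul, eval_C, eval_X, eval_pow,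
    eval_neg, map_neg]
  ring

lemma psd_aux {a b c u v : ℝ} (htr : 0 ≤ a + c) (hdet : 0 < a * c - b ^ 2) :
    0 ≤ a * u * u + b * u * v + (b * v * u + c * v * v) := by
  have ha : 0 < a := by
    by_contra h
    have h' : a ≤ 0 := not_lt.1 h
    have hc : 0 ≤ c := by linarith
    nlinarith [sq_nonneg b, mul_nonneg (neg_nonneg.2 h') hc]
  have : 0 ≤ a * (a * u * u + b * u * v + (b * v * u + c * v * v)) := by
    have e : a * (a * u * u + b * u * v + (b * v * u + c * v * v)) =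
      (a * u + b * v) ^ 2 + (a * c - b ^ 2) * v ^ 2 := by ring
    rw [e]; positivity
  exact (mul_nonneg_iff_of_pos_left ha).1 this

lemma mem_Icc_of {x : E2} (hx : x ∈ Metric.closedBall (0 : E2) 1) :
    x 0 ^ 2 + x 1 ^ 2 ∈ Set.Icc (0 : ℝ) 1 := by
  have h : ‖x‖ ≤ 1 := by simpa using hx
  have h2 : ‖x‖ ^ 2 = x 0 ^ 2 + x 1 ^ 2 := by
    rw [EuclideanSpace.norm_sq_eq]; simp
  refine ⟨by positivity, ?_⟩
  rw [← h2]
  nlinarith [norm_nonneg x]

lemma eq_one_of {x : E2} (hx : x ∈ Metric.sphere (0 : E2) 1) : x 0 ^ 2 + x 1 ^ 2 = 1 := by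
  have h : ‖x‖ = 1 := by simpa using hx
  have h2 : ‖x‖ ^ 2 = x 0 ^ 2 + x 1 ^ 2 := by
    rw [EuclideanSpace.norm_sq_eq]; simp
  rw [← h2, h]; norm_num

lemma elliptic_coef (T B G : ℝ[X])
    (h1 : ∀ t ∈ Set.Icc (0 : ℝ) 1, 0 ≤ T.eval t - 1)
    (h2 : ∀ t ∈ Set.Icc (0 : ℝ) 1, 0 ≤ T.eval t + t * B.eval t - 1)
    (h3 : ∀ t ∈ Set.Icc (0 : ℝ) 1,
      0 < (T.eval t - 1) * (T.eval t + t * B.eval t - 1) - t ^ 2 * G.eval t ^ 2)
    (x : E2) (hx : x ∈ Metric.closedBall (0 : E2) 1) (ξ : Fin 2 → ℝ) :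
    1 * ∑ i, ξ i ^ 2 ≤ ∑ i, ∑ j, coef T B G i j x * ξ i * ξ j := by
  have ht := mem_Icc_of hx
  have e1 := h1 _ ht
  have e2 := h2 _ ht
  have e3 := h3 _ ht
  have key := psd_aux (a := c00 T B G x - 1) (b := c01 B G x) (c := c11 T B G x - 1)
    (u := ξ 0) (v := ξ 1)
    (by simp only [c00, c11, rad]; nlinarith)
    (by
      refine e3.trans_eq ?_
      simp only [c00, c01, c11, rad]; ring)
  simp only [Fin.sum_univ_two, coef, Matrix.cons_val_zero, Matrix.cons_val_one,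
    Matrix.cons_val_fin_one]
  nlinarith

lemma posElliptic_coef (T B G : ℝ[X])
    (h1 : ∀ t ∈ Set.Icc (0 : ℝ) 1, 0 ≤ T.eval t - 1)
    (h2 : ∀ t ∈ Set.Icc (0 : ℝ) 1, 0 ≤ T.eval t + t * B.eval t - 1)
    (h3 : ∀ t ∈ Set.Icc (0 : ℝ) 1,
      0 < (T.eval t - 1) * (T.eval t + t * B.eval t - 1) - t ^ 2 * G.eval t ^ 2) :
    PosElliptic (coef T B G) (fun _ => 1) where
  smooth_A := contDiff_coef T B G
  smooth_c := contDiff_const
  symm := fun i j => by fin_cases i <;> fin_cases j <;> simp [coef]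
  elliptic := ⟨1, one_pos, elliptic_coef T B G h1 h2 h3⟩
  c_pos := fun _ _ => one_pos
  positive := ⟨1, one_pos, positive_of _ (contDiff_coef T B G) fun x hx ξ =>
    le_trans (by positivity) (elliptic_coef T B G h1 h2 h3 x hx ξ)⟩

end Pool.Agent.Lib.MP_f60174_an
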